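import Mathlib
import Pool.Agent.H.MP_a283c1_gt.B

namespace Pool.Agent.Results.MP_a283c1_gt.No

/-- Gauss diagram of an `n`-component virtual string link diagram. Classical crossings carry labels
`c : ℕ`; `(c, true)` is the over-passage and `(c, false)` the under-passage at `c`; `word i` lists
the passages met along the `i`-th strand; `sign c` is the sign of the crossing `c`. -/
structure Gauss (n : ℕ) where
  word : Fin n → List (ℕ × Bool)
  sign : ℕ → ℤˣ
  nodup : ∀ i, (word i).Nodup
  disj : ∀ i j e, e ∈ word i → e ∈ word j → i = j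
  both : ∀ c, (∃ i, (c, true) ∈ word i) ↔ ∃ i, (c, false) ∈ word i

variable {n : ℕ}

/-- Two passages are consecutive on some strand, in either order. -/
def Adj (D : Gauss n) (a b : ℕ × Bool) : Prop :=
  ∃ i u v, D.word i = u ++ a :: b :: v ∨ D.word i = u ++ b :: a :: v

/-- The crossings of `E` have the same signs as in `D`. -/
def SameSign (D E : Gauss n) : Prop := ∀ i, ∀ e ∈ E.word i, E.sign e.1 = D.sign e.1

/-- Renaming of the crossings. -/
def Rename (D E : Gauss n) : Prop :=
  ∃ f : Equiv.Perm ℕ, (∀ i, E.word i = (D.word i).map (Prod.map f id)) ∧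
    ∀ i, ∀ e ∈ D.word i, E.sign (f e.1) = D.sign e.1

/-- Self-virtualization: erase a crossing of a strand with itself (R1 is a special case). -/
def SelfVirt (D E : Gauss n) : Prop :=
  ∃ c i, (c, true) ∈ D.word i ∧ (c, false) ∈ D.word i ∧
    (∀ j, E.word j = (D.word j).filter fun e => e.1 ≠ c) ∧ SameSign D E

/-- R2: erase two crossings of opposite signs with consecutive over-passages and consecutive
under-passages. -/
def R2 (D E : Gauss n) : Prop :=
  ∃ c d, D.sign c = -D.sign d ∧ Adj D (c, true) (d, true) ∧ Adj D (c, false) (d, false) ∧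
    (∀ j, E.word j = (D.word j).filter fun e => e.1 ≠ c ∧ e.1 ≠ d) ∧ SameSign D E

/-- R3: crossings `x` (top over middle), `y` (top over bottom), `z` (middle over bottom) whose
passages are consecutive on each of the three arcs; the order is reversed on each arc. No condition
on signs is imposed, so every R3 move is included. -/
def R3 (D E : Gauss n) : Prop :=
  ∃ x y z, x ≠ y ∧ x ≠ z ∧ y ≠ z ∧ Adj D (x, true) (y, true) ∧ Adj D (x, false) (z, true) ∧
    Adj D (y, false) (z, false) ∧
    (∀ j, E.word j = (D.word j).map (Equiv.swap (x, true) (y, true) *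
      Equiv.swap (x, false) (z, true) * Equiv.swap (y, false) (z, false) : Equiv.Perm (ℕ × Bool))) ∧
    SameSign D E

def Move (D E : Gauss n) : Prop := Rename D E ∨ SelfVirt D E ∨ R2 D E ∨ R3 D E

/-- Gauss diagram of a monotone diagram: the crossings have heights that strictly increase along
every strand. -/
def IsMonotone (D : Gauss n) : Prop :=
  ∃ h : ℕ → ℝ, ∀ i, (D.word i).Pairwise fun a b => h a.1 < h b.1

open Pool.Agent.H.MP_a283c1_gt in
theorem result : ∃ D : Gauss 4, ∀ E : Gauss 4, Relation.EqvGen Move D E → ¬ IsMonotone E := by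
  classical
  have h1 : ∀ D E : Gauss 4, Move D E → (P D.word ↔ P E.word) := by
    intro D E h
    have hD : WF D.word := ⟨D.nodup, D.disj⟩
    have hE : WF E.word := ⟨E.nodup, E.disj⟩
    rcases h with ⟨f, h, -⟩ | ⟨c, i, a1, a2, h, -⟩ | ⟨c, d, -, a1, a2, h, -⟩ |
      ⟨x, y, z, a1, a2, a3, a4, a5, a6, h, -⟩ <;> rw [funext h] at hE ⊢
    · exact P_iso' f
    · exact P_self hD c i a1 a2
    · exact P_r2 hD c d a1 a2
    · exact P_r3' hD hE a1 a2 a3 a4 a5 a6
  have h2 : ∀ D E : Gauss 4, Relation.EqvGen Move D E → (P D.word ↔ P E.word) := by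
    intro D E h
    induction h with
    | rel D E h => exact h1 D E h
    | refl => rfl
    | symm _ _ _ ih => exact ih.symm
    | trans _ _ _ _ _ ih ih' => exact ih.trans ih'
  refine ⟨⟨W0, fun _ => 1, by decide, ?_, fun c => ?_⟩, fun E hE ⟨h, hh⟩ => ?_⟩
  · have : ∀ i j, ∀ e ∈ W0 i, e ∈ W0 j → i = j := by decide
    exact fun i j e => this i j e
  · have a1 : ∀ i, ∀ e ∈ W0 i, ∃ j, bar e ∈ W0 j := by decide
    exact ⟨fun ⟨i, hi⟩ => a1 i _ hi, fun ⟨i, hi⟩ => a1 i _ hi⟩
  · let S : Finset ℕ := Finset.univ.biUnion fun i => ((E.word i).map Prod.fst).toFinset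
    refine not_P ?_ (fun c => (S.filter fun d => h d < h c).card) (fun i => ?_)
      ((h2 _ _ hE).1 P_W0)
    · rintro i ⟨c, _ | _⟩ he
      · exact (E.both c).2 ⟨i, he⟩
      · exact (E.both c).1 ⟨i, he⟩
    · refine List.Pairwise.imp_of_mem (fun {a b} ha _ hab => ?_) (hh i)
      refine Finset.card_lt_card ⟨fun d hd => ?_, fun hd => ?_⟩
      · rw [Finset.mem_filter] at hd ⊢
        exact ⟨hd.1, hd.2.trans hab⟩
      · have : a.1 ∈ S := Finset.mem_biUnion.2
          ⟨i, Finset.mem_univ _, List.mem_toFinset.2 (List.mem_map_of_mem ha)⟩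
        exact lt_irrefl _ (Finset.mem_filter.1 (hd (Finset.mem_filter.2 ⟨this, hab⟩))).2

end Pool.Agent.Results.MP_a283c1_gt.No
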